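import Pool.Agent.H2.ASFinal
import Pool.Agent.H2.WPoly

/-!
# The Selmer groups of the Artin-Schreier twists of elliptic curves over `𝔽_q(t)`, `q` even, at `ℓ = 2`

Let `k` be a finite field of characteristic two and `b` a polynomial over `k` which is not a square.
The elliptic curves

  `E(a) : y² + x y = x³ + a x² + b`, `a ∈ k[t]`,

over `K = k(t)` are the quadratic (Artin-Schreier) twists of `E(0)` which are unramified outside of
infinity; we consider all `a` whose degree is odd and larger than the degree of `b` (every twist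
with a large conductor is of this form, as `a` matters only modulo `z² + z`).

(1) The order of the 2-Selmer group of `E(a)` is at most `2 ^ r`, `r` the number of the monic
irreducible factors `P` of `b` such that `P` has odd multiplicity in `b` or `a` is of the form
`z² + z` modulo `P`, and it is at most `2 ^ (r - 1)` if `a` is not of this form modulo some `P` of odd
multiplicity. So the ranks of all these twists have the bound `ω(b)`.

(2) If `a` is not of the form `z² + z` modulo any prime factor of `b`, then `E(a)(K)` is finite of odd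
order and the Selmer groups `Sel(E(a), 2ⁿ)` are finite, killed by two and of order at most `2 ^ ω(b)`
for all `n`; hence `Sel(E(a), ℤ₂) = 0`, `T₂ Sha = 0`. If moreover exactly one `P` has odd multiplicity
in `b` (for instance if `b` is irreducible), then `Sel(E(a), 2ⁿ) = 0` for all `n`.

(3) This applies to exactly the proportion `2 ^ (- ω(b))` of the polynomials `a` of a given degree;
if `b` is irreducible, to exactly one half of them.

The proof uses the descent map of `Pool.Agent.H2.Descent`, which embeds the 2-Selmer group into the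
additive group of polynomials, and a descent modulo 4 (`Pool.Agent.H2.WMain`).
-/

namespace Pool.Agent.Results.MP_1bdb59_nt.ArtinSchreierTwists

open Polynomial Pool.Agent.H2

universe u

section Aux

variable {k : Type u} [Field k]

/-- The curve `y² + x y = x³ + a x² + b` over `k(X)`. -/
noncomputable abbrev curve (a b : k[X]) : WeierstrassCurve.Affine (RatFunc k) :=
  (twc a b).map (algebraMap k[X] (RatFunc k))

/-- The monic irreducible factors of `b`. -/
def primeFactors (b : k[X]) : Set k[X] := {P | P.Monic ∧ Irreducible P ∧ P ∣ b}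

theorem primeFactors_finite {b : k[X]} (hb : b ≠ 0) : (primeFactors b).Finite := by
  classical
  refine (UniqueFactorizationMonoid.normalizedFactors b).toFinset.finite_toSet.subset ?_
  intro Q hQ
  have h1 : normalize Q = Q := hQ.1.normalize_eq_self
  simp only [Finset.mem_coe, Multiset.mem_toFinset]
  obtain ⟨q, hq, hqa⟩ := UniqueFactorizationMonoid.exists_mem_normalizedFactors_of_dvd hb hQ.2.1
    hQ.2.2
  have h2 : q = normalize Q := by
    rw [← UniqueFactorizationMonoid.normalize_normalized_factor q hq]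
    exact (normalize_eq_normalize hqa.dvd hqa.symm.dvd).symm
  rw [← h1, ← h2]
  exact hq

theorem nonsplit_assoc {a P Q : k[X]} (h : Associated P Q) : Nonsplit a P ↔ Nonsplit a Q := by
  unfold Nonsplit
  constructor
  · intro h1 z hz
    exact h1 z (h.dvd.trans hz)
  · intro h1 z hz
    exact h1 z (h.symm.dvd.trans hz)

theorem curve_eq (a b : k[X]) :
    curve a b = gcurve (algebraMap k[X] (RatFunc k) a) (algebraMap k[X] (RatFunc k) b) := by
  unfold gcurve
  apply WeierstrassCurve.ext <;> simp [curve, twc, WeierstrassCurve.map]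

variable [Finite k] [CharP k 2]

theorem small_congr {W W' : WeierstrassCurve.Affine (RatFunc k)} (h : W = W') (N : ℕ)
    (H : Finite (Pts W' (RatFunc k)) ∧ Odd (Nat.card (Pts W' (RatFunc k))) ∧
      ∀ n : ℕ, Finite (SelmerGroup W' (2 ^ n)) ∧ Nat.card (SelmerGroup W' (2 ^ n)) ≤ 2 ^ N ∧
        ∀ x : SelmerGroup W' (2 ^ n), 2 • x = 0) :
    Finite (Pts W (RatFunc k)) ∧ Odd (Nat.card (Pts W (RatFunc k))) ∧
      ∀ n : ℕ, Finite (SelmerGroup W (2 ^ n)) ∧ Nat.card (SelmerGroup W (2 ^ n)) ≤ 2 ^ N ∧
        ∀ x : SelmerGroup W (2 ^ n), 2 • x = 0 := by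
  subst h
  exact H

theorem PC_of_odd {b P : k[X]} (hPi : Irreducible P) (hPb : OddAt b P) : PC b ≠ 0 := by
  intro h
  obtain ⟨n, hn, hn1, hn2⟩ := hPb
  have h1 := PE_PC b
  rw [h] at h1
  have hb0 : b ≠ 0 := by rintro rfl; exact hn2 (dvd_zero _)
  have hc : b = PE b ^ 2 := by linear_combination h1
  have hc0 : PE b ≠ 0 := by
    intro h0
    rw [h0] at hc
    exact hb0 (by rw [hc]; ring)
  obtain ⟨m, hm1, hm2⟩ := exists_mult hPi hc0
  obtain ⟨d, hd⟩ := hm1
  have hd' : ¬ P ∣ d := by
    rintro ⟨e, he⟩
    apply hm2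
    exact ⟨e, by rw [hd, he]; ring⟩
  have hb2 : b = P ^ (2 * m) * d ^ 2 := by rw [hc, hd]; ring
  have h3 : ¬ P ^ (2 * m + 1) ∣ b := by
    rw [hb2, pow_succ]
    intro h4
    have h5 := (mul_dvd_mul_iff_left (pow_ne_zero (2 * m) hPi.ne_zero)).mp h4
    exact hd' (hPi.prime.dvd_of_dvd_pow h5)
  have h6 : n = 2 * m := by
    rcases lt_trichotomy n (2 * m) with h7 | h7 | h7
    · exfalso
      apply hn2
      rw [hb2]
      exact (pow_dvd_pow P (by omega)).mul_right _
    · exact h7
    · exfalso
      apply h3
      exact (pow_dvd_pow P (by omega)).trans hn1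
  rw [h6] at hn
  exact (Nat.not_odd_iff_even.mpr (even_two_mul m)) hn

end Aux

/-- **Theorem.** The Selmer groups of the Artin-Schreier twists `y² + x y = x³ + a x² + b`. -/
theorem result {k : Type u} [Field k] [Finite k] [CharP k 2] :
    -- (1) bounds for the 2-Selmer groups of all the twists
    (∀ a b : k[X], Odd a.natDegree → b.natDegree < a.natDegree → ¬ IsSquare b →
      NoTorsion (curve a b) 2 ∧ Finite (SelmerGroup (curve a b) 2) ∧
      Nat.card (SelmerGroup (curve a b) 2) ≤ 2 ^ (primesOf a b).ncard ∧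
      ((∃ P, Irreducible P ∧ OddAt b P ∧ Nonsplit a P) →
        2 * Nat.card (SelmerGroup (curve a b) 2) ≤ 2 ^ (primesOf a b).ncard)) ∧
    -- (2) all the Selmer groups if `a` is nonsplit at all the primes of `b`
    (∀ a b : k[X], Odd a.natDegree → b.natDegree < a.natDegree → ¬ IsSquare b →
      (∀ Q, Irreducible Q → Q ∣ b → Nonsplit a Q) →
      Finite (Pts (curve a b) (RatFunc k)) ∧ Odd (Nat.card (Pts (curve a b) (RatFunc k))) ∧
      (∀ n : ℕ, Finite (SelmerGroup (curve a b) (2 ^ n)) ∧
        Nat.card (SelmerGroup (curve a b) (2 ^ n)) ≤ 2 ^ (primeFactors b).ncard ∧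
        ∀ x : SelmerGroup (curve a b) (2 ^ n), 2 • x = 0) ∧
      ((∃! P, P.Monic ∧ Irreducible P ∧ OddAt b P) →
        ∀ n : ℕ, Subsingleton (SelmerGroup (curve a b) (2 ^ n)))) ∧
    -- (3) the proportion of the twists in (2)
    (∀ b : k[X], b ≠ 0 → ∀ m : ℕ, b.natDegree < m →
      2 ^ (primeFactors b).ncard *
        Nat.card {a : k[X] // a.natDegree = m ∧ ∀ Q, Irreducible Q → Q ∣ b → Nonsplit a Q}
        = Nat.card {a : k[X] // a.natDegree = m}) := by
  classical
  refine ⟨?_, ?_, ?_⟩
  · intro a b ha hab hb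
    have hκ := PC_ne_zero hb
    exact ⟨fun R hR => no_torsion_two basisX (hk_crv _ (hk_twc a hκ)) (sepK basisX) R hR,
      sel_bounds hκ ha hab⟩
  · intro a b ha hab hb hns
    have hb0 : b ≠ 0 := by rintro rfl; exact hb ⟨0, by simp⟩
    obtain ⟨h1, h2, h3⟩ := small_congr (curve_eq a b) _
      (small_poly ha hab hb hns (primeFactors_finite hb0))
    refine ⟨h1, h2, h3, ?_⟩
    · rintro ⟨P, ⟨hPm, hPi, hPb⟩, hone⟩
      have hPdvd : P ∣ b := by
        obtain ⟨n, hn, hn1, -⟩ := hPb
        exact (dvd_pow_self P hn.pos.ne').trans hn1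
      have h5 := sel_zero (PC_of_odd hPi hPb) ha hab hPb hPi (hns P hPi hPdvd) (by
        rintro Q ⟨hQm, hQi, hQb, hQ⟩
        rcases hQ with hQ | hQ
        · rw [hone Q ⟨hQm, hQi, hQ⟩]
        · exact absurd (hns Q hQi hQb) hQ)
      exact fun n => (h5 n).1
  · intro b hb m hm
    have hfin := primeFactors_finite hb
    set R := hfin.toFinset with hR
    have hRm : ∀ P ∈ R, P.Monic ∧ Irreducible P := fun P hP =>
      ⟨(hfin.mem_toFinset.mp hP).1, (hfin.mem_toFinset.mp hP).2.1⟩
    have hsum : ∑ P ∈ R, P.natDegree ≤ m := by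
      have h1 : (∏ P ∈ R, P) ∣ b := by
        apply Finset.prod_dvd_of_coprime
        · intro P hP Q hQ hne
          exact cop_of R hRm hP hQ hne
        · intro P hP
          exact (hfin.mem_toFinset.mp hP).2.2
      have h2 := natDegree_le_of_dvd h1 hb
      rw [natDegree_prod_of_monic _ _ fun P hP => (hRm P hP).1] at h2
      omega
    have h1 := density R hRm (by omega) hsum
    rw [Set.ncard_eq_toFinset_card _ hfin]
    have h2 : Nat.card {a : k[X] // a.natDegree = m ∧ ∀ Q, Irreducible Q → Q ∣ b → Nonsplit a Q}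
        = Nat.card {a : k[X] // a.natDegree = m ∧ ∀ P ∈ R, Nonsplit a P} := by
      apply Nat.card_congr
      apply Equiv.subtypeEquivRight
      intro a
      constructor
      · rintro ⟨h3, h4⟩
        exact ⟨h3, fun P hP => h4 P (hRm P hP).2 (hfin.mem_toFinset.mp hP).2.2⟩
      · rintro ⟨h3, h4⟩
        refine ⟨h3, fun Q hQ hQb => ?_⟩
        have h5 : Associated (normalize Q) Q := normalize_associated Q
        have h6 := h4 (normalize Q) (hfin.mem_toFinset.mpr
          ⟨monic_normalize hQ.ne_zero, h5.symm.irreducible hQ, h5.dvd.trans hQb⟩)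
        exact (nonsplit_assoc h5).mp h6
    rw [h2]
    exact h1

end Pool.Agent.Results.MP_1bdb59_nt.ArtinSchreierTwists
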