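import Pool.Agent.H2.VSel

/-!
# The Selmer group conjecture at `ℓ = 2` for quadratic twists over `k(X)`, `k` finite of characteristic two

Let `K = k(X)` with `k` a finite field of characteristic two. The twist of the elliptic curve
`y² + x y = x³ + a₀ x² + b` by the extension generated by a root of `z² + z = a` is
`y² + x y = x³ + (a₀ + a) x² + b`. We fix `a₀` and a finite set `B` of functions `b` which are not
squares, and order the quadratic extensions of `K` by the degree of their conductor. The extensions more
ramified than `a₀` and `B` at the places where `a₀` or some `b ∈ B` is bad form a positive proportion of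
all of them. For more than `28.8 %` of them, over every extension `L = k'(X)` of `K` of odd degree (given
by `X ↦ h`, with `h` a polynomial of odd degree and `[k' : k]` odd) with only one place above each pole
of `a₀ + a`, the twists `E` of all the curves with `b ∈ B` simultaneously have a finite group `E(L)` of
odd order and `Sel(E / L, ℤ₂) = 0`.
-/

namespace Pool.Agent.Results.MP_1bdb59_nt.SelmerConjectureTwists

open Polynomial IsDedekindDomain Pool.Agent.H2

theorem result {k : Type} [Field k] [Finite k] [CharP k 2] (a₀ : RatFunc k)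
    (B : Finset (RatFunc k)) (hB : ∀ b ∈ B, ¬ IsSquare b) :
    ((∀ a : RatFunc k, ∃! M : ℕ, ∃ a' ∈ asClass a, HalfCond a' M) ∧
    ∃ C M₀ : ℕ, ∀ M, M₀ ≤ M →
      (asClass '' {a : RatFunc k | HalfCond a M}).Finite ∧
      (asClass '' {a : RatFunc k | HalfCond a M}).ncard ≤
        C * (asClass '' {a : RatFunc k | HalfCond a M ∧ MoreRamified a₀ B a}).ncard ∧
      (asClass '' {a : RatFunc k | HalfCond a M ∧ MoreRamified a₀ B a}).Nonempty ∧
      288 * (asClass '' {a : RatFunc k | HalfCond a M ∧ MoreRamified a₀ B a}).ncard ≤
        1000 * (asClass '' {a : RatFunc k | HalfCond a M ∧ MoreRamified a₀ B a ∧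
          ∀ b, ¬ IsSquare b → (b ∈ B ∨ Adm (a₀ + a) b) → SelConjOver (a₀ + a) b}).ncard) ∧
    ∀ (k' : Type) [Field k'] [Finite k'] [Algebra k k'], Odd (Module.finrank k k') →
      ∃ Φ : RatFunc k →+* RatFunc k', Subst Φ X ∧ ∀ T : Finset (HeightOneSpectrum k[X]),
        (∀ p ∈ T, (gQ p).natDegree.Coprime (Module.finrank k k')) → OddExt T Φ X :=
  ⟨⟨halfCond_unique, sel_prop a₀ B hB⟩, fun k' _ _ _ hodd => const_ext k' hodd⟩

end Pool.Agent.Results.MP_1bdb59_nt.SelmerConjectureTwists
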